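import Pool.Agent.Helper95_CM.Base
import Pool.Agent.Helper95_CM.StF

/-!
# CM: linearity of `Psi` and other common lemmas (helper10)
-/

set_option autoImplicit false
set_option linter.unusedSectionVars false

noncomputable section

namespace Pool.Agent.Helper95_CM.H10

open MvPolynomial Pool.Agent.Helper95_CM

section
variable {n M : ℕ} {R : Type} [CommRing R] (p : ℕ)

lemma VV_eq_sum (F x : PP n R) (T : Finset (Expo n)) (hT : x.support ⊆ T) :
    VV p F x = ∑ s ∈ T, monomial s ((gam p (s 0) : R) * coeff s x) *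
      F ^ (p * mm p (s 0) - s 0) := by
  unfold VV
  refine Finset.sum_subset hT ?_
  intro s _ hs
  rw [notMem_support_iff.mp hs, mul_zero, monomial_zero, zero_mul]

lemma VV_add (F x y : PP n R) : VV p F (x + y) = VV p F x + VV p F y := by
  classical
  rw [VV_eq_sum p F (x + y) (x.support ∪ y.support) support_add,
    VV_eq_sum p F x (x.support ∪ y.support) Finset.subset_union_left,
    VV_eq_sum p F y (x.support ∪ y.support) Finset.subset_union_right,
    ← Finset.sum_add_distrib]
  refine Finset.sum_congr rfl fun s _ => ?_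
  rw [coeff_add, mul_add, map_add, add_mul]

lemma VV_C_mul (F x : PP n R) (r : R) : VV p F (C r * x) = C r * VV p F x := by
  classical
  have h1 : (C r * x).support ⊆ x.support := by
    intro s hs
    rw [mem_support_iff, coeff_C_mul] at hs
    rw [mem_support_iff]
    intro h0
    exact hs (by rw [h0, mul_zero])
  rw [VV_eq_sum p F _ _ h1, VV_eq_sum p F x _ (Finset.Subset.refl _), Finset.mul_sum]
  refine Finset.sum_congr rfl fun s _ => ?_
  rw [coeff_C_mul, ← mul_assoc (C r), C_mul_monomial]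
  congr 2
  ring

/-- `V` on a homogeneous element -/
lemma VV_of_hasLev (F x : PP n R) (l : ℕ) (hx : HasLev l x) :
    VV p F x = C ((gam p l : ℕ) : R) * x * F ^ (p * mm p l - l) := by
  classical
  unfold VV
  have h1 : ∀ s ∈ x.support, monomial s ((gam p (s 0) : R) * coeff s x) *
      F ^ (p * mm p (s 0) - s 0) =
      monomial s ((gam p l : R) * coeff s x) * F ^ (p * mm p l - l) := by
    intro s hs
    have : s 0 = l := hx s (mem_support_iff.mp hs)
    rw [this]
  rw [Finset.sum_congr rfl h1, ← Finset.sum_mul]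
  congr 1
  have h2 : ∀ s, monomial s ((gam p l : R) * coeff s x) =
      C ((gam p l : ℕ) : R) * monomial s (coeff s x) := by
    intro s
    rw [C_mul_monomial]
  simp only [h2]
  rw [← Finset.mul_sum, support_sum_monomial_coeff]

end

section
variable {n M : ℕ} {R : Type} [CommRing R] (p : ℕ) [Fact p.Prime] (z : ℤ_[p] →+* R)

lemma Psi_add (J : ℕ) (F Dl x y : PP n R) :
    Psi p z J F Dl (x + y) = Psi p z J F Dl x + Psi p z J F Dl y := by
  unfold Psi
  rw [VV_add, mul_add, psi_add (Fact.out : p.Prime).pos]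

lemma Psi_C_mul (J : ℕ) (F Dl x : PP n R) (r : R) :
    Psi p z J F Dl (C r * x) = C r * Psi p z J F Dl x := by
  unfold Psi
  rw [VV_C_mul, mul_left_comm, psi_C_mul (Fact.out : p.Prime).pos]

lemma Psi_zero (J : ℕ) (F Dl : PP n R) : Psi p z J F Dl 0 = 0 := by
  have := Psi_C_mul p z J F Dl 0 0
  rwa [mul_zero, C_0, zero_mul] at this

lemma Psi_sum (J : ℕ) (F Dl : PP n R) {ι : Type} (t : Finset ι) (x : ι → PP n R) :
    Psi p z J F Dl (∑ i ∈ t, x i) = ∑ i ∈ t, Psi p z J F Dl (x i) := by
  classical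
  induction t using Finset.induction_on with
  | empty => rw [Finset.sum_empty, Finset.sum_empty, Psi_zero]
  | insert a t ha ih => rw [Finset.sum_insert ha, Finset.sum_insert ha, Psi_add, ih]

end

section
variable {n M : ℕ} {R : Type} [CommRing R]

lemma exists_levLe (x : PP n R) : ∃ l, LevLe l x := by
  refine ⟨x.support.sup (fun s => s 0), ?_⟩
  intro s hs
  exact Finset.le_sup (f := fun s : Expo n => s 0) (mem_support_iff.mpr hs)

lemma crd_C_mul {b : Bool} (A : CAD n M b) (c : Grid n M → R) (r : R) (x : PP n R) (s : A.Bas) :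
    crd A c (C r * x) s = r * crd A c x s := by
  rw [← smul_eq_C_mul, map_smul, Pi.smul_apply, smul_eq_mul]

lemma crd_sum_Dop {b : Bool} {A : CAD n M b} {c : Grid n M → R} (h : IsCrd A c (crd A c))
    (τ : Fin (n + 1) → PP n R) (hτ : ∀ i, IsCone M b (τ i)) :
    crd A c (∑ i, Dop c i (τ i)) = 0 := by
  rw [map_sum]
  exact Finset.sum_eq_zero fun i _ => h.kill i _ (hτ i)

lemma crd_bb {b : Bool} {A : CAD n M b} {c : Grid n M → R} (h : IsCrd A c (crd A c))
    (s s' : A.Bas) : crd A c (bb A c s) s' = if s' = s then 1 else 0 := by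
  rw [h.basis s, Pi.single_apply]

lemma isCone_Jac (hJ : JConeStmt) (hn : 1 ≤ n) (hM : 1 ≤ M) (c : Grid n M → R) :
    IsCone M true (Jac c) ∧ HasLev (n + 1) (Jac c) :=
  hJ n M R (fun i => th i (Fp c)) hn hM (fun i => ⟨isCone_Yp c i, hasLev_Yp c i⟩)

lemma isCone_bb (hJ : JConeStmt) {b : Bool} (A : CAD n M b) (hn : 1 ≤ n) (hM : 1 ≤ M)
    (c : Grid n M → R) (s : A.Bas) :
    IsCone M b (bb A c s.1) ∧ HasLev (s.1 0) (bb A c s.1) := by
  unfold bb bbo
  split_ifs with h
  · obtain ⟨hb, hs⟩ := h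
    subst hb
    have := isCone_Jac hJ hn hM c
    refine ⟨this.1, ?_⟩
    rw [hs, A.top_lev]
    exact this.2
  · exact ⟨Supp.monomial (A.cone s.1 s.2) 1,
      Supp.monomial (P := fun s' : Expo n => s' 0 = s.1 0) rfl 1⟩

lemma subB_top (p : ℕ) [Fact p.Prime] (z : ℤ_[p] →+* R) (f : R →+* R) (d : R →+ R)
    (c : Grid n M → R) : SubB p z f d c ⊤ :=
  ⟨fun _ => trivial, fun _ => trivial, fun _ _ => trivial, fun _ _ => trivial,
    fun _ _ => trivial⟩

lemma bas_lev_le {b : Bool} (A : CAD n M b) (s : A.Bas) : s.1 0 ≤ Lb n b := by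
  unfold Lb
  rcases A.lev s.1 s.2 with h | ⟨h, h'⟩
  · split_ifs <;> omega
  · rw [if_pos h, h', A.top_lev]

end

end Pool.Agent.Helper95_CM.H10
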