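import Pool.Agent.Helper10_CM.Bas

/-!
# CM: modules EMX, PFM (helper10)
-/

set_option autoImplicit false
set_option linter.unusedSectionVars false

noncomputable section

namespace Pool.Agent.Helper95_CM.H10

open MvPolynomial Pool.Agent.Helper95_CM

/-! ### `expand` -/

lemma supp_expand {n : ℕ} {R : Type} [CommRing R] (p : ℕ) {P Q : Expo n → Prop}
    (h : ∀ s, P s → Q (p • s)) {x : PP n R} (hx : Supp P x) : Supp Q (expand p x) := by
  classical
  have h1 : expand p x = ∑ s ∈ x.support, monomial (p • s) (coeff s x) := by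
    conv_lhs => rw [← support_sum_monomial_coeff x]
    rw [map_sum]
    refine Finset.sum_congr rfl fun s _ => ?_
    rw [expand_monomial]
  rw [h1]
  refine Supp.sum _ _ fun s hs => ?_
  exact Supp.monomial (h s (hx s (mem_support_iff.mp hs))) _

lemma IsCone.expand {n M : ℕ} {b : Bool} {R : Type} [CommRing R] {p : ℕ} (hp : 0 < p)
    {x : PP n R} (hx : IsCone M b x) : IsCone M b (MvPolynomial.expand p x) := by
  refine supp_expand p ?_ hx
  intro s hs
  cases b
  · intro k
    have := hs k
    simp only [Finsupp.smul_apply, smul_eq_mul]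
    calc p * s k.succ ≤ p * (M * s 0) := Nat.mul_le_mul_left _ this
      _ = M * (p * s 0) := by ring
  · intro k
    have := hs k
    simp only [Finsupp.smul_apply, smul_eq_mul]
    refine ⟨Nat.mul_pos hp this.1, ?_⟩
    calc p * s k.succ < p * (M * s 0) := Nat.mul_lt_mul_of_pos_left this.2 hp
      _ = M * (p * s 0) := by ring

lemma psi_expand_mul {n : ℕ} {R : Type} [CommRing R] {p : ℕ} (hp : 0 < p) (a : R)
    (T g : PP n R) : psi p (T * (C a * expand p g * 1)) = C a * (psi p T * g) := by
  rw [mul_one, mul_left_comm, psi_C_mul hp, psi_mul_expand hp]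

/-- `Psi (expand g) = p^l u_l psi(T) g` for `g` homogeneous of level `l` -/
lemma Psi_expand (hGam : GamStmt) {n : ℕ} {R : Type} [CommRing R] (p : ℕ) [Fact p.Prime]
    (hp : 3 ≤ p) (z : ℤ_[p] →+* R) (J : ℕ) (F Dl g : PP n R) (l : ℕ) (hg : HasLev l g) :
    Psi p z J F Dl (expand p g) =
      C ((p : R) ^ l * ((uu p l : ℕ) : R)) * (psi p (TJ p z J Dl) * g) := by
  obtain ⟨-, -, -, -, h5, h6, -, -⟩ := hGam p Fact.out hp
  have hL : HasLev (p * l) (expand p g) := by
    refine supp_expand (P := fun s => s 0 = l) p ?_ hg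
    intro s hs
    simp only [Finsupp.smul_apply, smul_eq_mul, hs]
  unfold Psi
  rw [VV_of_hasLev p F _ (p * l) hL, (h5 l).2.1, Nat.sub_self, pow_zero,
    psi_expand_mul (by omega), (h6 l).1]
  push_cast
  rfl

theorem isUnit_uu (hGam : GamStmt) {R : Type} [CommRing R] (p : ℕ) [Fact p.Prime]
    (hp : 3 ≤ p) (z : ℤ_[p] →+* R) (l : ℕ) : IsUnit ((uu p l : ℕ) : R) := by
  obtain ⟨-, -, -, -, -, h6, -, -⟩ := hGam p Fact.out hp
  have h1 : IsUnit ((uu p l : ℕ) : ℤ_[p]) := by
    rw [PadicInt.isUnit_iff]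
    rw [PadicInt.norm_def]
    have h2 := (h6 l).2
    push_cast
    rw [Padic.norm_natCast_eq_one_iff]
    exact (Nat.Prime.coprime_iff_not_dvd (Fact.out : p.Prime)).mpr h2
  have := h1.map z
  rwa [map_natCast] at this

/-! ### EMX -/

theorem emx (hPMX : PmxStmt) (hGam : GamStmt) (hEE : EeStmt) (hHB1 : Hb1Stmt)
    (hJ : JConeStmt) : EmxStmt := by
  intro n M p b A _ R _ z f d c Dl N hn hM hp hN hF hDl hdt
  have hp0 : 0 < p := by omega
  have hdt' : IsUnit (dt A (fun β => f (c β))) := by rw [dt_map]; exact hdt.map f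
  have hcrd : IsCrd A (fun β => f (c β)) (crd A (fun β => f (c β))) :=
    hHB1 n M b A R _ hn hM hdt'
  obtain ⟨he0, -, -, he1, -⟩ := hEE p hp
  constructor
  · -- `E = 1` mod `p`
    have h1 : ∃ y : PP n R, TJ p z (2 * N) Dl = 1 + C (p : R) * y := by
      have h2 : ∀ j ∈ Finset.range (2 * N - 1),
          ∃ w : PP n R, C (z (ee p (j + 1))) * Dl ^ (j + 1) = C (p : R) * w := by
        intro j _
        obtain ⟨v, hv⟩ := he1 (j + 1) (by omega)
        refine ⟨C (z v) * Dl ^ (j + 1), ?_⟩
        rw [hv, map_mul, map_natCast, C_mul]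
        ring
      choose! w hw using h2
      refine ⟨∑ j ∈ Finset.range (2 * N - 1), w j, ?_⟩
      unfold TJ
      rw [show 2 * N = (2 * N - 1) + 1 by omega, Finset.sum_range_succ', he0, map_one, C_1,
        pow_zero, mul_one, add_comm, Finset.mul_sum]
      congr 1
      exact Finset.sum_congr rfl fun j hj => hw j hj
    obtain ⟨y, hy⟩ := h1
    have h3 : psi p (TJ p z (2 * N) Dl) = 1 + C (p : R) * psi p y := by
      rw [hy, psi_add hp0, psi_C_mul hp0]
      congr 1
      have := psi_monomial_smul (R := R) (n := n) hp0 0 1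
      rw [smul_zero] at this
      exact this
    intro s' s
    have h4 : Em A p z N f c Dl s' s = (if s' = s then 1 else 0) +
        (p : R) * crd A (fun β => f (c β)) (psi p y * bb A (fun β => f (c β)) s.1) s' := by
      unfold Em
      rw [Matrix.of_apply, h3, add_mul, one_mul, mul_assoc, map_add, Pi.add_apply, crd_C_mul,
        crd_bb hcrd s s']
    rw [h4, Matrix.one_apply, add_sub_cancel_left]
    exact dvd_mul_right _ _
  · intro s' s
    have hb := isCone_bb hJ A hn hM (fun β => f (c β)) s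
    have hu := isUnit_uu hGam p hp z (s.1 0)
    have h1 := hPMX n M p b A R z f d c Dl N hn hM hp hN hF hDl hdt
      (expand p (bb A (fun β => f (c β)) s.1)) (IsCone.expand hp0 hb.1) s'
    rw [Psi_expand hGam p hp z (2 * N) (Fp c) Dl _ _ hb.2, crd_C_mul] at h1
    have h2 : (Pm A p z N f c Dl * Thm A p f c) s' s =
        Ring.inverse ((uu p (s.1 0) : ℕ) : R) *
          ((Pm A p z N f c Dl).mulVec (crd A c (expand p (bb A (fun β => f (c β)) s.1)))) s' := by
      rw [Matrix.mul_apply]
      unfold Matrix.mulVec dotProduct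
      rw [Finset.mul_sum]
      refine Finset.sum_congr rfl fun r _ => ?_
      unfold Thm
      rw [Matrix.of_apply]
      ring
    have h3 : (Em A p z N f c Dl *
        Matrix.diagonal (fun s : A.Bas => (p : R) ^ (s.1 0))) s' s =
        Ring.inverse ((uu p (s.1 0) : ℕ) : R) * ((p : R) ^ (s.1 0) * ((uu p (s.1 0) : ℕ) : R) *
          crd A (fun β => f (c β)) (psi p (TJ p z (2 * N) Dl) *
            bb A (fun β => f (c β)) s.1) s') := by
      rw [Matrix.mul_diagonal]
      unfold Em
      rw [Matrix.of_apply]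
      have h4 : Ring.inverse ((uu p (s.1 0) : ℕ) : R) * ((uu p (s.1 0) : ℕ) : R) = 1 :=
        Ring.inverse_mul_cancel _ hu
      calc _ = (Ring.inverse ((uu p (s.1 0) : ℕ) : R) * ((uu p (s.1 0) : ℕ) : R)) *
            (crd A (fun β => f (c β)) (psi p (TJ p z (2 * N) Dl) *
            bb A (fun β => f (c β)) s.1) s' * (p : R) ^ (s.1 0)) := by rw [h4, one_mul]
        _ = _ := by ring
    rw [h2, h3, ← mul_sub]
    refine Dvd.dvd.mul_left ?_ _
    rw [← dvd_neg, neg_sub]
    exact h1

end Pool.Agent.Helper95_CM.H10
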