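import Pool.Agent.Helper95_CM.StE

/-!
# CM: module LINA (helper10)
-/

set_option autoImplicit false
set_option linter.unusedSectionVars false

noncomputable section

namespace Pool.Agent.Helper95_CM.H10

open Pool.Agent.Helper95_CM Module

/-- the functional `v ↦ ∑ α_j v_j` -/
def Lal {𝒦 : Type} [Field 𝒦] (k : Subfield 𝒦) {I : Type} [Fintype I] (α : I → 𝒦) :
    (I → k) →ₗ[k] 𝒦 where
  toFun v := ∑ j, α j * (v j : 𝒦)
  map_add' v w := by
    rw [← Finset.sum_add_distrib]
    refine Finset.sum_congr rfl fun j _ => ?_
    rw [Pi.add_apply, Subfield.coe_add, mul_add]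
  map_smul' c v := by
    rw [RingHom.id_apply, Subfield.smul_def, smul_eq_mul, Finset.mul_sum]
    refine Finset.sum_congr rfl fun j _ => ?_
    rw [Pi.smul_apply, smul_eq_mul, Subfield.coe_mul]
    ring

theorem lina : LinaStmt := by
  classical
  intro 𝒦 _ k I _ _ α x0 hx
  set L := Lal k α with hL
  have hLx : L x0 = 1 := hx
  have h1 : (1 : 𝒦) ∈ L.range := ⟨x0, hLx⟩
  -- a basis of the range containing `1`
  have hs : LinearIndepOn k id ({⟨1, h1⟩} : Set L.range) := by
    refine LinearIndepOn.singleton ?_
    intro h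
    exact one_ne_zero (congrArg Subtype.val h)
  let w := Basis.extend hs
  let ι := ↥(hs.extend (Set.subset_univ _))
  have hfin : Finite ι := Module.Finite.finite_basis w
  let _ : Fintype ι := Fintype.ofFinite ι
  let i0 : ι := ⟨⟨1, h1⟩, Basis.subset_extend hs rfl⟩
  have hwi : ∀ j : ι, w j = j.1 := fun j => Basis.extend_apply_self hs j
  -- preimages
  have hpre : ∀ j : ι, ∃ v : I → k, L v = (w j : 𝒦) := fun j => (w j).2
  choose u' hu' using hpre
  let u : ι → I → k := fun j => if j = i0 then x0 else u' j
  have hu : ∀ j, L (u j) = (w j : 𝒦) := by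
    intro j
    simp only [u]
    split_ifs with h
    · rw [hLx, h, hwi]
    · exact hu' j
  have hu0 : u i0 = x0 := if_pos rfl
  have hw𝒦 : LinearIndependent k (fun j : ι => (w j : 𝒦)) :=
    w.linearIndependent.map' L.range.subtype (Submodule.ker_subtype _)
  have hlu : LinearIndependent k u := by
    refine LinearIndependent.of_comp L ?_
    have : (L ∘ u) = fun j : ι => (w j : 𝒦) := funext hu
    rw [this]
    exact hw𝒦
  -- a basis of the kernel
  let bN := Module.finBasis k L.ker
  have hlN : LinearIndependent k (fun i => (bN i : I → k)) :=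
    bN.linearIndependent.map' L.ker.subtype (Submodule.ker_subtype _)
  have hdis : Disjoint (Submodule.span k (Set.range fun i => (bN i : I → k)))
      (Submodule.span k (Set.range u)) := by
    rw [Submodule.disjoint_def]
    intro x hx1 hx2
    have hx0 : L x = 0 := by
      have : Submodule.span k (Set.range fun i => (bN i : I → k)) ≤ L.ker := by
        rw [Submodule.span_le]
        rintro _ ⟨i, rfl⟩
        exact (bN i).2
      exact this hx1
    rw [Submodule.mem_span_range_iff_exists_fun] at hx2
    obtain ⟨c, rfl⟩ := hx2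
    rw [map_sum] at hx0
    simp only [map_smul, hu] at hx0
    have h2 := Fintype.linearIndependent_iff.mp hw𝒦 c hx0
    refine Finset.sum_eq_zero fun j _ => ?_
    rw [h2 j, zero_smul]
  have hlf : LinearIndependent k (Sum.elim (fun i => (bN i : I → k)) u) :=
    LinearIndependent.sum_type hlN hlu hdis
  -- cardinality
  have hcard : Fintype.card I = Fintype.card (Fin (finrank k L.ker) ⊕ ι) := by
    rw [Fintype.card_sum, Fintype.card_fin, ← Module.finrank_eq_card_basis w, add_comm,
      LinearMap.finrank_range_add_finrank_ker, Module.finrank_fintype_fun_eq_card]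
  let e : I ≃ Fin (finrank k L.ker) ⊕ ι := Fintype.equivOfCardEq hcard
  let f : I → I → k := fun i => Sum.elim (fun i => (bN i : I → k)) u (e i)
  let B : Matrix I I k := Matrix.of fun j i => f i j
  have hcol : LinearIndependent k B.col := by
    have : B.col = (Sum.elim (fun i => (bN i : I → k)) u) ∘ e := by
      funext i j
      rfl
    rw [this]
    exact hlf.comp e e.injective
  have hB : IsUnit B := Matrix.linearIndependent_cols_iff_isUnit.mp hcol
  obtain ⟨Bu, hBu⟩ := hB
  have hLB : ∀ i, ∑ j, α j * (B j i : 𝒦) = L (f i) := fun i => rfl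
  let i1 : I := e.symm (Sum.inr i0)
  have hei1 : e i1 = Sum.inr i0 := e.apply_symm_apply _
  refine ⟨B, (Bu⁻¹).val, i1, Finset.univ.filter (fun i => i = i1 ∨ ∃ t, e i = Sum.inl t), ?_, ?_,
    ?_, ?_, ?_, ?_⟩
  · rw [← hBu]
    exact Bu.mul_inv
  · rw [← hBu]
    exact Bu.inv_mul
  · simp
  · intro j
    change f i1 j = x0 j
    simp only [f, hei1, Sum.elim_inr, hu0]
  · intro i hi
    rw [Finset.mem_filter] at hi
    rw [hLB]
    rcases hi.2 with h | ⟨t, ht⟩
    · rw [if_pos h, h]
      simp only [f, hei1, Sum.elim_inr, hu0]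
      exact hLx
    · have hne : i ≠ i1 := by
        intro h
        rw [h, hei1] at ht
        exact absurd ht (by simp)
      rw [if_neg hne]
      simp only [f, ht, Sum.elim_inl]
      exact (bN t).2
  · -- linear independence
    have hinr : ∀ j : {j : I // j = i1 ∨ j ∉ Finset.univ.filter
        (fun i => i = i1 ∨ ∃ t, e i = Sum.inl t)}, ∃ t : ι, e j.1 = Sum.inr t := by
      rintro ⟨j, hj⟩
      rcases hj with h | h
      · exact ⟨i0, (congrArg e h).trans hei1⟩
      · cases h3 : e j with
        | inl t =>
          exfalso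
          apply h
          rw [Finset.mem_filter]
          exact ⟨Finset.mem_univ _, Or.inr ⟨t, h3⟩⟩
        | inr t => exact ⟨t, rfl⟩
    choose t ht using hinr
    have htinj : Function.Injective t := by
      intro j j' h
      have h1 := ht j
      rw [h, ← ht j'] at h1
      exact Subtype.ext (e.injective h1)
    have h4 := hw𝒦.comp t htinj
    have h5 : (fun j : {j : I // j = i1 ∨ j ∉ Finset.univ.filter
        (fun i => i = i1 ∨ ∃ t, e i = Sum.inl t)} => ∑ j', α j' * (B j' j.1 : 𝒦)) =
        (fun j : ι => (w j : 𝒦)) ∘ t := by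
      funext j
      rw [hLB]
      simp only [f, ht j, Sum.elim_inr, Function.comp]
      exact hu (t j)
    rw [h5]
    exact h4

end Pool.Agent.Helper95_CM.H10
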