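import Pool.Agent.Helper10_CM.Bas

/-!
# CM: modules PFM and PFP (helper10)
-/

set_option autoImplicit false
set_option linter.unusedSectionVars false

noncomputable section

namespace Pool.Agent.Helper95_CM.H10

open Pool.Agent.Helper95_CM

section cong
variable {I J K R : Type} [CommRing R]

lemma cong_iff (a : R) (X Y : Matrix I J R) :
    Cong a X Y ↔ ∃ W : Matrix I J R, X = Y + a • W := by
  constructor
  · intro h
    choose W hW using h
    refine ⟨Matrix.of W, ?_⟩
    ext i j
    rw [Matrix.add_apply, Matrix.smul_apply, Matrix.of_apply, smul_eq_mul, ← hW]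
    ring
  · rintro ⟨W, rfl⟩ i j
    rw [Matrix.add_apply, Matrix.smul_apply, smul_eq_mul, add_sub_cancel_left]
    exact dvd_mul_right _ _

lemma cong_mono {a b : R} (h : a ∣ b) {X Y : Matrix I J R} (hXY : Cong b X Y) : Cong a X Y :=
  fun i j => h.trans (hXY i j)

lemma pow_tf {p : ℕ} (htf : ∀ x : R, (p : R) * x = 0 → x = 0) (k : ℕ) (x : R)
    (h : (p : R) ^ k * x = 0) : x = 0 := by
  induction k with
  | zero => rwa [pow_zero, one_mul] at h
  | succ k ih =>
    rw [pow_succ', mul_assoc] at h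
    exact ih (htf _ h)

lemma smul_cancel {p : ℕ} (htf : ∀ x : R, (p : R) * x = 0 → x = 0) (k m : ℕ)
    (W V : Matrix I J R) (h : (p : R) ^ k • W = (p : R) ^ (k + m) • V) :
    W = (p : R) ^ m • V := by
  ext i j
  have h1 := congrFun (congrFun h i) j
  rw [Matrix.smul_apply, Matrix.smul_apply, smul_eq_mul, smul_eq_mul, pow_add, mul_assoc] at h1
  have h2 : (p : R) ^ k * (W i j - (p : R) ^ m * V i j) = 0 := by
    rw [mul_sub, h1, sub_self]
  have h3 := pow_tf htf k _ h2
  rw [Matrix.smul_apply, smul_eq_mul]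
  exact sub_eq_zero.mp h3

end cong

/-! ### PFM -/

section pfm
variable {I R : Type} [Fintype I] [DecidableEq I] [CommRing R]

lemma geom_cong {p : ℕ} (N : ℕ) (E : Matrix I I R) (hE : Cong (p : R) E 1) :
    ∃ W : Matrix I I R, E * ∑ i ∈ Finset.range N, (1 - E) ^ i = 1 - (p : R) ^ N • W := by
  obtain ⟨W, hW⟩ := (cong_iff _ _ _).mp hE
  refine ⟨(-W) ^ N, ?_⟩
  have h1 : 1 - E = (p : R) • (-W) := by
    rw [hW, smul_neg]
    abel
  have h2 := mul_neg_geom_sum (1 - E) N
  rw [sub_sub_cancel] at h2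
  rw [h2, h1, smul_pow]

lemma geom_cong_one {p : ℕ} (N : ℕ) (hN : 1 ≤ N) (E : Matrix I I R) (hE : Cong (p : R) E 1) :
    Cong (p : R) (∑ i ∈ Finset.range N, (1 - E) ^ i) 1 := by
  obtain ⟨W, hW⟩ := (cong_iff _ _ _).mp hE
  have h1 : 1 - E = (p : R) • (-W) := by
    rw [hW, smul_neg]
    abel
  rw [cong_iff]
  refine ⟨∑ i ∈ Finset.range (N - 1), (1 - E) ^ i * (-W), ?_⟩
  obtain ⟨m, rfl⟩ := Nat.exists_eq_add_of_le' hN
  rw [Finset.sum_range_succ', pow_zero, Nat.add_sub_cancel, add_comm, Finset.smul_sum]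
  congr 1
  refine Finset.sum_congr rfl fun i _ => ?_
  rw [pow_succ, ← mul_smul_comm, ← h1]

end pfm

theorem pfm (hEMX : EmxStmt) : PfmStmt := by
  intro n M p b A _ R _ z f d c Dl N hn hM hp hN hF hDl hdt
  obtain ⟨hE, hPT⟩ := hEMX n M p b A R z f d c Dl N hn hM hp hN hF hDl hdt
  have hFm : Fm A p z N f c Dl = Thm A p f c *
    Matrix.diagonal (fun s : A.Bas => (p : R) ^ (Lb n b - s.1 0)) *
    ∑ i ∈ Finset.range N, (1 - Em A p z N f c Dl) ^ i := rfl
  constructor
  · rw [cong_iff]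
    obtain ⟨W, hW⟩ := (cong_iff _ _ _).mp hPT
    obtain ⟨V, hV⟩ := geom_cong N _ hE
    set S := ∑ i ∈ Finset.range N, (1 - Em A p z N f c Dl) ^ i with hS
    set D2 := Matrix.diagonal (fun s : A.Bas => (p : R) ^ (Lb n b - s.1 0)) with hD2
    set D1 := Matrix.diagonal (fun s : A.Bas => (p : R) ^ (s.1 0)) with hD1
    have hD : D1 * D2 = (p : R) ^ (Lb n b) • (1 : Matrix A.Bas A.Bas R) := by
      rw [hD1, hD2, Matrix.diagonal_mul_diagonal, Matrix.smul_one_eq_diagonal]
      congr 1
      funext s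
      rw [← pow_add]
      congr 1
      have := bas_lev_le A s
      omega
    refine ⟨W * D2 * S - (p : R) ^ (Lb n b) • V, ?_⟩
    calc Pm A p z N f c Dl * Fm A p z N f c Dl
        = (Pm A p z N f c Dl * Thm A p f c) * D2 * S := by
          rw [hFm]
          simp only [Matrix.mul_assoc]
      _ = Em A p z N f c Dl * (D1 * D2) * S + (p : R) ^ N • (W * D2 * S) := by
          rw [hW, Matrix.add_mul, Matrix.add_mul, Matrix.smul_mul, Matrix.smul_mul,
            Matrix.mul_assoc (Em A p z N f c Dl)]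
      _ = (p : R) ^ (Lb n b) • (Em A p z N f c Dl * S) + (p : R) ^ N • (W * D2 * S) := by
          rw [hD, Matrix.mul_smul, Matrix.mul_one, Matrix.smul_mul]
      _ = _ := by
          rw [hV, smul_sub, smul_sub, smul_smul, smul_smul, mul_comm ((p : R) ^ Lb n b)]
          abel
  · intro s hs s'
    have h1 := geom_cong_one N hN _ hE
    set S := ∑ i ∈ Finset.range N, (1 - Em A p z N f c Dl) ^ i with hS
    rw [hFm, Matrix.mul_apply]
    refine Finset.dvd_sum fun r _ => ?_
    rw [Matrix.mul_diagonal]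
    by_cases hr : r = s
    · subst hr
      refine Dvd.dvd.mul_right (Dvd.dvd.mul_left ?_ _) _
      exact dvd_pow_self _ (by omega)
    · have h2 := h1 r s
      rw [Matrix.one_apply_ne hr, sub_zero] at h2
      exact Dvd.dvd.mul_left h2 _

/-! ### PFP -/

section pfp
variable {I R : Type} [Fintype I] [DecidableEq I] [CommRing R]

lemma det_cong (a : R) (X Y : Matrix I I R) (h : Cong a X Y) : a ∣ X.det - Y.det := by
  rw [← Ideal.mem_span_singleton, ← Ideal.Quotient.mk_eq_mk_iff_sub_mem, RingHom.map_det,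
    RingHom.map_det]
  congr 1
  ext i j
  rw [RingHom.mapMatrix_apply, RingHom.mapMatrix_apply, Matrix.map_apply, Matrix.map_apply,
    Ideal.Quotient.mk_eq_mk_iff_sub_mem, Ideal.mem_span_singleton]
  exact h i j

lemma map_d_mul {d : R →+ R} (hd : IsDer d) (X Y : Matrix I I R) :
    (X * Y).map d = X.map d * Y + X * Y.map d := by
  ext i j
  rw [Matrix.map_apply, Matrix.mul_apply, Matrix.add_apply, Matrix.mul_apply, Matrix.mul_apply,
    map_sum, ← Finset.sum_add_distrib]
  refine Finset.sum_congr rfl fun k _ => ?_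
  rw [hd, Matrix.map_apply, Matrix.map_apply]

lemma IsDer.natPow {d : R →+ R} (hd : IsDer d) (p N : ℕ) : d ((p : R) ^ N) = 0 := by
  have := hd.natCast (p ^ N)
  rwa [Nat.cast_pow] at this

lemma map_d_smul {d : R →+ R} (hd : IsDer d) (p N : ℕ) (X : Matrix I I R) :
    ((p : R) ^ N • X).map d = (p : R) ^ N • X.map d := by
  ext i j
  rw [Matrix.map_apply, Matrix.smul_apply, smul_eq_mul, hd, IsDer.natPow hd, zero_mul, zero_add]
  rfl

lemma map_d_one {d : R →+ R} (hd : IsDer d) (p L : ℕ) :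
    ((p : R) ^ L • (1 : Matrix I I R)).map d = 0 := by
  rw [map_d_smul hd]
  have : (1 : Matrix I I R).map d = 0 := by
    ext i j
    rw [Matrix.map_apply, Matrix.one_apply, Matrix.zero_apply]
    split_ifs
    · exact hd.one
    · exact map_zero d
  rw [this, smul_zero]

end pfp

theorem pfp : PfpStmt := by
  intro p _ I _ _ R _ z f d N L Q P F hF hN hPF hcP
  set r := Fintype.card I with hr
  have htf := hF.tf
  obtain ⟨X, hX⟩ := (cong_iff _ _ _).mp hPF
  obtain ⟨Y, hY⟩ := (cong_iff _ _ _).mp hcP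
  -- `F P`
  have hFP : ∃ Z' : Matrix I I R, F * P = (p : R) ^ L • (1 : Matrix I I R) +
      (p : R) ^ (N - L * r) • Z' := by
    obtain ⟨Z, hZ⟩ : ∃ Z : Matrix I I R, Z = F * P - (p : R) ^ L • (1 : Matrix I I R) := ⟨_, rfl⟩
    have h1 : P * Z = (p : R) ^ N • (X * P) := by
      rw [hZ, Matrix.mul_sub, ← Matrix.mul_assoc, hX, Matrix.add_mul, Matrix.smul_mul,
        Matrix.one_mul, Matrix.smul_mul, Matrix.mul_smul, Matrix.mul_one, add_sub_cancel_left]
    have h2 : (P.det * F.det) • Z = (p : R) ^ N • (F.det • (P.adjugate * (X * P))) := by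
      have h3 : P.det • Z = (p : R) ^ N • (P.adjugate * (X * P)) := by
        rw [← Matrix.mul_smul, ← h1, ← Matrix.mul_assoc, Matrix.adjugate_mul, Matrix.smul_mul,
          Matrix.one_mul]
      rw [mul_comm, mul_smul, h3, smul_comm]
    have h4 : ∃ y, P.det * F.det = (p : R) ^ (L * r) + (p : R) ^ N * y := by
      obtain ⟨y, hy⟩ := det_cong _ _ _ hPF
      refine ⟨y, ?_⟩
      rw [← Matrix.det_mul, ← hy, Matrix.det_smul, Matrix.det_one, mul_one, ← pow_mul]
      ring
    obtain ⟨y, hy⟩ := h4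
    rw [hy, add_smul] at h2
    have h5 : (p : R) ^ (L * r) • Z = (p : R) ^ (L * r + (N - L * r)) •
        (F.det • (P.adjugate * (X * P)) - y • Z) := by
      rw [show L * r + (N - L * r) = N by omega, smul_sub, ← h2, mul_smul]
      abel
    have h6 := smul_cancel htf _ _ _ _ h5
    refine ⟨F.det • (P.adjugate * (X * P)) - y • Z, ?_⟩
    rw [← h6, hZ]
    abel
  obtain ⟨Z', hZ'⟩ := hFP
  have hle : (p : R) ^ (N - (L * r + L)) ∣ (p : R) ^ N := pow_dvd_pow _ (by omega)
  have hle2 : (p : R) ^ (N - (L * r + L)) ∣ (p : R) ^ (N - L * r) := pow_dvd_pow _ (by omega)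
  refine ⟨cong_mono hle hPF, cong_mono hle2 ((cong_iff _ _ _).mpr ⟨Z', hZ'⟩),
    cong_mono hle hcP, ?_⟩
  -- `cF`
  obtain ⟨W, hW⟩ : ∃ W : Matrix I I R, W = F.map d + Q * F - (p : R) • (F * Q.map f) :=
    ⟨_, rfl⟩
  have h1 : P.map d * F + P * F.map d = (p : R) ^ N • X.map d := by
    rw [← map_d_mul hF.der, hX]
    have : ((p : R) ^ L • (1 : Matrix I I R) + (p : R) ^ N • X).map d =
        ((p : R) ^ L • (1 : Matrix I I R)).map d + ((p : R) ^ N • X).map d := by
      ext i j
      simp only [Matrix.map_apply, Matrix.add_apply, map_add]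
    rw [this, map_d_one hF.der, map_d_smul hF.der, zero_add]
  have h2 : P.map d = P * Q + (p : R) ^ N • Y - (p : R) • (Q.map f * P) := by
    rw [← hY]
    abel
  have h3 : P * W = (p : R) ^ N • (X.map d - Y * F + (p : R) • (Q.map f * X) -
      (p : R) • (X * Q.map f)) := by
    have h4 : P * F.map d = (p : R) ^ N • X.map d - P.map d * F := by
      rw [← h1]
      abel
    have h5 : P.map d * F = P * (Q * F) + (p : R) ^ N • (Y * F) -
        (p : R) • (Q.map f * (P * F)) := by
      rw [h2, Matrix.sub_mul, Matrix.add_mul, Matrix.smul_mul, Matrix.smul_mul, Matrix.mul_assoc,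
        Matrix.mul_assoc]
    have h6 : P * (F * Q.map f) = (P * F) * Q.map f := (Matrix.mul_assoc _ _ _).symm
    rw [hW, Matrix.mul_sub, Matrix.mul_add, h4, h5, Matrix.mul_smul, h6, hX, Matrix.add_mul,
      Matrix.mul_add, Matrix.smul_mul, Matrix.smul_mul, Matrix.mul_smul, Matrix.mul_smul,
      Matrix.one_mul, Matrix.mul_one]
    module
  have h7 : (p : R) ^ L • W = (p : R) ^ (L + (N - (L * r + L))) •
      ((p : R) ^ (L * r) • (F * (X.map d - Y * F + (p : R) • (Q.map f * X) -
      (p : R) • (X * Q.map f))) - Z' * W) := by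
    have h8 : F * P * W = (p : R) ^ L • W + (p : R) ^ (N - L * r) • (Z' * W) := by
      rw [hZ', Matrix.add_mul, Matrix.smul_mul, Matrix.one_mul, Matrix.smul_mul]
    have h9 : F * P * W = (p : R) ^ N • (F * (X.map d - Y * F + (p : R) • (Q.map f * X) -
      (p : R) • (X * Q.map f))) := by
      rw [Matrix.mul_assoc, h3, Matrix.mul_smul]
    rw [show L + (N - (L * r + L)) = N - L * r by omega, smul_sub, smul_smul, ← pow_add,
      show N - L * r + L * r = N by omega, ← h9, h8]
    abel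
  have h10 := smul_cancel htf _ _ _ _ h7
  rw [cong_iff]
  exact ⟨_, by rw [← h10, hW]; abel⟩

end Pool.Agent.Helper95_CM.H10
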