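import Pool.Agent.Helper10_CM.Bas

/-!
# CM: modules PSD, PSN, PMX, CPM (helper10)
-/

set_option autoImplicit false
set_option linter.unusedSectionVars false

noncomputable section

namespace Pool.Agent.Helper95_CM.H10

open MvPolynomial Pool.Agent.Helper95_CM

lemma dvd_z_ee {R : Type} [CommRing R] (hEE : EeStmt) (p : ℕ) [Fact p.Prime] (hp : 3 ≤ p)
    (z : ℤ_[p] →+* R) (N : ℕ) : (p : R) ^ N ∣ z (p * ee p (2 * N - 1)) := by
  obtain ⟨-, -, -, -, h⟩ := hEE p hp
  obtain ⟨y, hy⟩ := h N (2 * N - 1) (by omega)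
  refine ⟨z (p * y), ?_⟩
  rw [hy, show (p : ℤ_[p]) * ((p : ℤ_[p]) ^ N * y) = (p : ℤ_[p]) ^ N * (p * y) by ring, map_mul,
    map_pow, map_natCast]

theorem psd (hPSO : PsoStmt) (hEE : EeStmt) (hHB1 : Hb1Stmt) : PsdStmt := by
  intro n M p b A _ R _ z f d c Dl N hn hM hp hN hF hDl hdt i σ hσ s
  have hcrd : IsCrd A (fun β => f (c β)) (crd A (fun β => f (c β))) :=
    hHB1 n M b A R _ hn hM (by rw [dt_map]; exact hdt.map f)
  obtain ⟨l, hl⟩ := exists_levLe σ
  obtain ⟨h1, -⟩ := hPSO n M p b R z f d c Dl (2 * N) l ⊤ hn hM hp (by omega) hF hDl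
    (subB_top p z f d c) σ hσ hl (fun _ => trivial)
  obtain ⟨τ, ρ, hτ, -, -, -, h⟩ := h1 i
  rw [h, map_add, crd_sum_Dop hcrd τ (fun j => (hτ j).1), zero_add, crd_C_mul]
  exact (dvd_z_ee hEE p hp z N).mul_right _

theorem psn (hPSO : PsoStmt) (hEE : EeStmt) (hHB1 : Hb1Stmt) : PsnStmt := by
  intro n M p b A _ R _ z f d c Dl N hn hM hp hN hF hDl hdt x hx s
  have hcrd : IsCrd A (fun β => f (c β)) (crd A (fun β => f (c β))) :=
    hHB1 n M b A R _ hn hM (by rw [dt_map]; exact hdt.map f)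
  obtain ⟨l, hl⟩ := exists_levLe x
  obtain ⟨-, τ, ρ, hτ, -, -, -, h⟩ := hPSO n M p b R z f d c Dl (2 * N) l ⊤ hn hM hp (by omega)
    hF hDl (subB_top p z f d c) x hx hl (fun _ => trivial)
  rw [h, show ∀ a b c : PP n R, a + b + c - a = b + c from fun a b c => by ring, map_add,
    crd_sum_Dop hcrd τ (fun j => (hτ j).1), zero_add, crd_C_mul]
  exact (dvd_z_ee hEE p hp z N).mul_right _

theorem pmx (hPSD : PsdStmt) (hHB2 : Hb2Stmt) : PmxStmt := by
  intro n M p b A _ R _ z f d c Dl N hn hM hp hN hF hDl hdt x hx s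
  obtain ⟨l, hl⟩ := exists_levLe x
  obtain ⟨σ, hσ, -, hx', -⟩ := hHB2 n M b A R c hn hM hdt l x hx hl
  have h1 : Psi p z (2 * N) (Fp c) Dl x =
      (∑ r : A.Bas, C (crd A c x r) * Psi p z (2 * N) (Fp c) Dl (bb A c r)) +
        ∑ i, Psi p z (2 * N) (Fp c) Dl (Dop c i (σ i)) := by
    conv_lhs => rw [hx', Psi_add, Psi_sum, Psi_sum]
    congr 1
    refine Finset.sum_congr rfl fun r _ => ?_
    rw [Psi_C_mul]
  rw [h1, map_add, map_sum, map_sum, Pi.add_apply, Finset.sum_apply, Finset.sum_apply]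
  have h2 : ((Pm A p z N f c Dl).mulVec (crd A c x)) s =
      ∑ r : A.Bas, crd A (fun β => f (c β)) (C (crd A c x r) *
        Psi p z (2 * N) (Fp c) Dl (bb A c r)) s := by
    unfold Matrix.mulVec dotProduct
    refine Finset.sum_congr rfl fun r _ => ?_
    rw [crd_C_mul, mul_comm]
    rfl
  rw [h2, add_sub_cancel_left]
  exact Finset.dvd_sum fun i _ => hPSD n M p b A R z f d c Dl N hn hM hp hN hF hDl hdt i _ (hσ i) s

theorem cder_map_comm {n : ℕ} {R : Type} [CommRing R] (p : ℕ) (f : R →+* R) (d : R →+ R)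
    (hc : ∀ x, d (f x) = (p : R) * f (d x)) (x : PP n R) :
    cder d (map f x) = C (p : R) * map f (cder d x) := by
  ext s
  rw [coeff_cder, coeff_map, coeff_C_mul, coeff_map, coeff_cder, hc]

theorem nab_map {n M : ℕ} {R : Type} [CommRing R] (p : ℕ) (f : R →+* R) (d : R →+ R)
    (hc : ∀ x, d (f x) = (p : R) * f (d x)) (c : Grid n M → R) (x : PP n R) :
    nab d (fun β => f (c β)) (map f x) = C (p : R) * map f (nab d c x) := by
  unfold nab
  rw [← map_Fp, cder_map_comm p f d hc, cder_map_comm p f d hc, map_sub, map_mul]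
  ring

lemma nab_zero {n M : ℕ} {R : Type} [CommRing R] (d : R →+ R) (c : Grid n M → R) :
    nab d c (0 : PP n R) = 0 := by
  have := nab_add d c (0 : PP n R) 0
  rw [add_zero] at this
  exact left_eq_add.mp this

lemma nab_sum {n M : ℕ} {R : Type} [CommRing R] (d : R →+ R) (c : Grid n M → R) {ι : Type}
    (t : Finset ι) (x : ι → PP n R) : nab d c (∑ i ∈ t, x i) = ∑ i ∈ t, nab d c (x i) := by
  classical
  induction t using Finset.induction_on with
  | empty => rw [Finset.sum_empty, Finset.sum_empty, nab_zero]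
  | insert a t ha ih => rw [Finset.sum_insert ha, Finset.sum_insert ha, nab_add, ih]

/-- the coordinates of `nab y` for `y` a combination of basis elements and exact elements -/
lemma crd_nab_comb (hHB3 : Hb3Stmt) {n M p : ℕ} [Fact p.Prime] {b : Bool} (A : CAD n M b)
    {R : Type} [CommRing R] {z : ℤ_[p] →+* R} {f : R →+* R} {d : R →+ R} (c : Grid n M → R)
    (hn : 1 ≤ n) (hM : 1 ≤ M) (hF : FBase p z f d) (hdt : IsUnit (dt A c))
    (hcrd : IsCrd A (fun β => f (c β)) (crd A (fun β => f (c β)))) (a : A.Bas → R)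
    (σ : Fin (n + 1) → PP n R) (hσ : ∀ i, IsCone M b (σ i)) (s' : A.Bas) :
    crd A (fun β => f (c β)) (nab d (fun β => f (c β))
      ((∑ r : A.Bas, C (a r) * bb A (fun β => f (c β)) r.1) +
        ∑ i, Dop (fun β => f (c β)) i (σ i))) s' =
      d (a s') + ∑ r : A.Bas, a r * ((p : R) * f (Rm A d c s' r)) := by
  have h5 : nab d (fun β => f (c β)) ((∑ r : A.Bas, C (a r) * bb A (fun β => f (c β)) r.1) +
        ∑ i, Dop (fun β => f (c β)) i (σ i)) =
      (∑ r : A.Bas, (C (d (a r)) * bb A (fun β => f (c β)) r.1 +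
        C (a r) * (C (p : R) * map f (nab d c (bb A c r.1))))) +
      ∑ i, Dop (fun β => f (c β)) i (nab d (fun β => f (c β)) (σ i)) := by
    rw [nab_add, nab_sum, nab_sum]
    refine congrArg₂ (· + ·) ?_ ?_
    · refine Finset.sum_congr rfl fun r _ => ?_
      rw [nab_C_mul hF.der, ← map_bb A f c, nab_map p f d hF.comm]
    · refine Finset.sum_congr rfl fun i _ => ?_
      rw [nab_Dop_comm hF.der]
  have hR : ∀ r : A.Bas, crd A (fun β => f (c β)) (map f (nab d c (bb A c r.1))) s' =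
      f (Rm A d c s' r) := fun r => hHB3 n M b A R R f c hn hM hdt (nab d c (bb A c r.1)) s'
  have h6 : ∀ (r : A.Bas) (u v : R), crd A (fun β => f (c β))
      (C u * bb A (fun β => f (c β)) r.1 +
        C v * (C (p : R) * map f (nab d c (bb A c r.1)))) s' =
      u * (if s' = r then 1 else 0) + v * ((p : R) * f (Rm A d c s' r)) := by
    intro r u v
    rw [map_add, Pi.add_apply, crd_C_mul, crd_C_mul, crd_C_mul, hR r, crd_bb hcrd r s']
  rw [h5, map_add, crd_sum_Dop hcrd _ (fun i => (hσ i).nab d _), add_zero, map_sum,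
    Finset.sum_apply, Finset.sum_congr rfl fun r _ => h6 r _ _, Finset.sum_add_distrib]
  refine congrArg₂ (· + ·) ?_ rfl
  simp only [mul_ite, mul_one, mul_zero]
  rw [Finset.sum_ite_eq Finset.univ s']
  simp

theorem cpm (hPMX : PmxStmt) (hPSN : PsnStmt) (hPCO : PcoStmt) (hHB1 : Hb1Stmt) (hHB2 : Hb2Stmt)
    (hHB3 : Hb3Stmt) (hJ : JConeStmt) : CpmStmt := by
  intro n M p b A _ R _ z f d c Dl N hn hM hp hN hF hDl hdt s' s
  have hdt' : IsUnit (dt A (fun β => f (c β))) := by rw [dt_map]; exact hdt.map f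
  have hcrd : IsCrd A (fun β => f (c β)) (crd A (fun β => f (c β))) :=
    hHB1 n M b A R _ hn hM hdt'
  have hb := isCone_bb hJ A hn hM c s
  -- the class of `Psi (nab b_s)`
  have h1 := hPMX n M p b A R z f d c Dl N hn hM hp hN hF hDl hdt (nab d c (bb A c s.1))
    (hb.1.nab d c) s'
  have h2 := hPSN n M p b A R z f d c Dl N hn hM hp hN hF hDl hdt (bb A c s.1) hb.1 s'
  -- `Psi b_s` in terms of the basis
  have hyc : IsCone M b (Psi p z (2 * N) (Fp c) Dl (bb A c s.1)) :=
    ((hPCO n M p b R z f d c Dl (2 * N) (s.1 0) ⊤ hF hDl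
    (subB_top p z f d c)).2 (bb A c s.1) hb.1 (hb.2.levLe le_rfl) (fun _ => trivial)).1
  have h4 : ∀ r : A.Bas, crd A (fun β => f (c β)) (Psi p z (2 * N) (Fp c) Dl (bb A c s.1)) r =
    Pm A p z N f c Dl r s := fun r => rfl
  generalize hy : Psi p z (2 * N) (Fp c) Dl (bb A c s.1) = y at h2 hyc h4
  obtain ⟨l, hl⟩ := exists_levLe y
  obtain ⟨σ, hσ, -, hy', -⟩ := hHB2 n M b A R (fun β => f (c β)) hn hM hdt' l y hyc hl
  have h3 : crd A (fun β => f (c β)) (nab d (fun β => f (c β)) y) s' =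
      d (Pm A p z N f c Dl s' s) +
        ∑ r : A.Bas, Pm A p z N f c Dl r s * ((p : R) * f (Rm A d c s' r)) := by
    have h5 := crd_nab_comb hHB3 A c hn hM hF hdt hcrd
      (fun r => crd A (fun β => f (c β)) y r) σ hσ s'
    rw [← hy'] at h5
    rw [h5]
    simp only [h4]
  -- combine
  have h7 : ((Pm A p z N f c Dl).mulVec (crd A c (nab d c (bb A c s.1)))) s' =
      (Pm A p z N f c Dl * Rm A d c) s' s := rfl
  rw [h7] at h1
  rw [map_sub, Pi.sub_apply, h3] at h2
  have h8 : ((Pm A p z N f c Dl).map d + (p : R) • ((Rm A d c).map f * Pm A p z N f c Dl)) s' s =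
      d (Pm A p z N f c Dl s' s) +
        ∑ r : A.Bas, Pm A p z N f c Dl r s * ((p : R) * f (Rm A d c s' r)) := by
    rw [Matrix.add_apply, Matrix.smul_apply, Matrix.mul_apply, Matrix.map_apply, smul_eq_mul,
      Finset.mul_sum]
    congr 1
    refine Finset.sum_congr rfl fun r _ => ?_
    rw [Matrix.map_apply]
    ring
  rw [h8]
  have h9 := dvd_sub h1 h2
  rwa [show ∀ u v w : R, u - v - (u - w) = w - v from fun u v w => by ring] at h9

end Pool.Agent.Helper95_CM.H10
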